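import Pool.Agent.H35.TT.TMon

/-!
Duals of finite families (helper27).
-/

set_option linter.unusedSectionVars false

open CategoryTheory CategoryTheory.Limits MonoidalCategory

namespace Pool.Agent.H75.TT

namespace Fam

section gen

variable {P : Type} [Category.{0} P] [Preadditive P] {F G H : Fam P}

lemma comp_m_single (f : F ⟶ G) (g : G ⟶ H) (i : F.ι) (k : H.ι) (j₀ : G.ι)
    (h : ∀ j, f.m i j ≠ 0 → g.m j k ≠ 0 → j = j₀) : (f ≫ g).m i k = f.m i j₀ ≫ g.m j₀ k := by
  classical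
  rw [comp_m_sum f g i k (insert j₀ (Hom.supp f i))
    (fun j hj => Finset.mem_insert_of_mem ((Hom.mem_supp _ _ _).2 hj))]
  refine Finset.sum_eq_single j₀ ?_ ?_
  · intro j _ hj
    by_cases h1 : f.m i j = 0
    · rw [h1, zero_comp]
    · have : g.m j k = 0 := by
        by_contra h2
        exact hj (h j h1 h2)
      rw [this, comp_zero]
  · intro h
    exact absurd (Finset.mem_insert_self _ _) h

lemma comp_m_eq_zero (f : F ⟶ G) (g : G ⟶ H) (i : F.ι) (k : H.ι)
    (h : ∀ j, f.m i j ≠ 0 → g.m j k = 0) : (f ≫ g).m i k = 0 := by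
  by_contra hne
  obtain ⟨j, h1, h2⟩ := comp_m_ne_zero f g i k hne
  exact h2 (h j h1)

lemma id_m_ne_zero {i j : F.ι} (h : (𝟙 F : F ⟶ F).m i j ≠ 0) : i = j := by
  by_contra hne
  exact h (id_m_ne F hne)

end gen

section dual

variable {P : Type} [Category.{0} P] [Preadditive P] [MonoidalCategory P]
  [MonoidalPreadditive P] [RightRigidCategory P]

/-- The family of the duals. -/
abbrev dual (F : Fam P) : Fam P := ⟨F.ι, fun i => (F.X i)ᘁ⟩

/-- The coevaluation matrix. -/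
noncomputable def coev (F : Fam P) [Finite F.ι] : unit P ⟶ tens F (dual F) := by
  classical
  exact
  { m := fun _ p => if h : p.1 = p.2 then
      η_ (F.X p.1) (F.X p.1)ᘁ ≫ eqToHom (by
        change F.X p.1 ⊗ (F.X p.1)ᘁ = F.X p.1 ⊗ (F.X p.2)ᘁ
        rw [h]) else 0
    fin := fun _ => Set.toFinite _ }

/-- The evaluation matrix. -/
noncomputable def ev (F : Fam P) : tens (dual F) F ⟶ unit P := by
  classical
  exact
  { m := fun p _ => if h : p.1 = p.2 then
      eqToHom (by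
        change (F.X p.1)ᘁ ⊗ F.X p.2 = (F.X p.2)ᘁ ⊗ F.X p.2
        rw [h]) ≫ ε_ (F.X p.2) (F.X p.2)ᘁ else 0
    fin := fun _ => Set.toFinite _ }

variable (F : Fam P)

lemma coev_m_self [Finite F.ι] (i : F.ι) : (coev F).m () (i, i) = η_ (F.X i) (F.X i)ᘁ := by
  simp [coev]

lemma coev_m_ne [Finite F.ι] {p : F.ι × F.ι} (h : p.1 ≠ p.2) : (coev F).m () p = 0 := by
  simp [coev, h]

lemma coev_m_ne_zero [Finite F.ι] {p : F.ι × F.ι} (h : (coev F).m () p ≠ 0) : p.1 = p.2 := by
  by_contra hne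
  exact h (coev_m_ne F hne)

lemma ev_m_self (i : F.ι) : (ev F).m (i, i) () = ε_ (F.X i) (F.X i)ᘁ := by
  simp [ev]

lemma ev_m_ne {p : F.ι × F.ι} (h : p.1 ≠ p.2) : (ev F).m p () = 0 := by
  simp [ev, h]

lemma ev_m_ne_zero {p : F.ι × F.ι} (h : (ev F).m p () ≠ 0) : p.1 = p.2 := by
  by_contra hne
  exact h (ev_m_ne F hne)

lemma zigzag₁ [Finite F.ι] : dual F ◁ coev F ≫ (α_ (dual F) F (dual F)).inv ≫
    ev F ▷ dual F = (ρ_ (dual F)).hom ≫ (λ_ (dual F)).inv := by
  have key : ∀ (p : (tens (dual F) (unit P)).ι) (q : (tens (dual F) (tens F (dual F))).ι)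
      (r : (tens (unit P) (dual F)).ι), (dual F ◁ coev F).m p q ≠ 0 →
      ((α_ (dual F) F (dual F)).inv ≫ ev F ▷ dual F).m q r ≠ 0 →
      q = (p.1, (p.1, p.1)) ∧ r.2 = p.1 := by
    rintro ⟨i, _⟩ ⟨j, k, l⟩ ⟨_, m⟩ h1 h2
    rw [whiskerLeft_eq] at h1
    have h3 := tensHom_m_ne_zero _ _ h1
    rw [assoc_inv_eq, diag_comp_m] at h2
    have h4 : (ev F ▷ dual F).m ((j, k), l) ((), m) ≠ 0 := by
      intro h0
      apply h2
      exact (congrArg (fun t => _ ≫ t) h0).trans comp_zero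
    have h5 := tensHom_m_ne_zero _ _ h4
    have e1 : i = j := id_m_ne_zero h3.1
    have e2 : k = l := coev_m_ne_zero F h3.2
    have e3 : j = k := ev_m_ne_zero F h5.1
    have e4 : l = m := id_m_ne_zero h5.2
    subst e1 e2 e3 e4
    exact ⟨rfl, rfl⟩
  ext ⟨i, _⟩ ⟨_, m⟩
  have hR : ((ρ_ (dual F)).hom ≫ (λ_ (dual F)).inv).m (i, ()) ((), m) =
      (ρ_ (F.X i)ᘁ).hom ≫ (λ_ (dual F)).inv.m i ((), m) := by
    rw [right_hom_eq]
    exact diag_comp_m (F := tens (dual F) (unit P)) (G := dual F) _ _ _ _ _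
  refine Eq.trans ?_ hR.symm
  by_cases him : i = m
  · subst him
    refine (comp_m_single (F := tens (dual F) (unit P)) (G := tens (dual F) (tens F (dual F)))
      (H := tens (unit P) (dual F)) (dual F ◁ coev F)
      ((α_ (dual F) F (dual F)).inv ≫ ev F ▷ dual F) (i, ()) ((), i) (i, (i, i))
      (fun j h1 h2 => (key _ _ _ h1 h2).1)).trans ?_
    have e1 : (dual F ◁ coev F).m (i, ()) (i, (i, i)) =
        (F.X i)ᘁ ◁ η_ (F.X i) (F.X i)ᘁ := by
      change (𝟙 (dual F) : dual F ⟶ dual F).m i i ⊗ₘ (coev F).m () (i, i) = _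
      rw [id_m_self, coev_m_self, MonoidalCategory.id_tensorHom]
    have e2 : ((α_ (dual F) F (dual F)).inv ≫ ev F ▷ dual F).m (i, (i, i)) ((), i) =
        (α_ _ _ _).inv ≫ ε_ (F.X i) (F.X i)ᘁ ▷ (F.X i)ᘁ := by
      rw [assoc_inv_eq]
      refine (diag_comp_m (F := tens (dual F) (tens F (dual F))) (G := tens (tens (dual F) F)
        (dual F)) _ _ _ _ _).trans ?_
      change _ ≫ ((ev F).m (i, i) () ⊗ₘ (𝟙 (dual F) : dual F ⟶ dual F).m i i) = _
      rw [id_m_self, ev_m_self, MonoidalCategory.tensorHom_id]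
    have e3 : (λ_ (dual F)).inv.m i ((), i) = (λ_ (F.X i)ᘁ).inv := by
      rw [left_inv_eq]
      exact diag_m_self (F := dual F) (G := tens (unit P) (dual F)) _ _ i
    refine (congrArg₂ (fun a b => a ≫ b) e1 e2).trans ?_
    refine Eq.trans ?_ (congrArg (fun t => _ ≫ t) e3).symm
    exact ExactPairing.coevaluation_evaluation (F.X i) (F.X i)ᘁ
  · refine (comp_m_eq_zero (F := tens (dual F) (unit P)) (G := tens (dual F) (tens F (dual F)))
      (H := tens (unit P) (dual F)) _ _ _ _ (fun j h1 => ?_)).trans ?_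
    · by_contra h2
      exact him (key _ _ _ h1 h2).2.symm
    · have e3 : (λ_ (dual F)).inv.m i ((), m) = 0 := by
        rw [left_inv_eq]
        refine diag_m_ne (F := dual F) (G := tens (unit P) (dual F)) _ _ ?_
        intro h
        exact him (congrArg Prod.snd h)
      exact ((congrArg (fun t => _ ≫ t) e3).trans comp_zero).symm

lemma zigzag₂ [Finite F.ι] : coev F ▷ F ≫ (α_ F (dual F) F).hom ≫
    F ◁ ev F = (λ_ F).hom ≫ (ρ_ F).inv := by
  have key : ∀ (p : (tens (unit P) F).ι) (q : (tens (tens F (dual F)) F).ι)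
      (r : (tens F (unit P)).ι), (coev F ▷ F).m p q ≠ 0 →
      ((α_ F (dual F) F).hom ≫ F ◁ ev F).m q r ≠ 0 →
      q = ((p.2, p.2), p.2) ∧ r.1 = p.2 := by
    rintro ⟨_, i⟩ ⟨⟨j, k⟩, l⟩ ⟨m, _⟩ h1 h2
    rw [whiskerRight_eq] at h1
    have h3 := tensHom_m_ne_zero _ _ h1
    rw [assoc_hom_eq, diag_comp_m] at h2
    have h4 : (F ◁ ev F).m (j, (k, l)) (m, ()) ≠ 0 := by
      intro h0
      apply h2
      exact (congrArg (fun t => _ ≫ t) h0).trans comp_zero
    have h5 := tensHom_m_ne_zero _ _ h4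
    have e1 : i = l := id_m_ne_zero h3.2
    have e2 : j = k := coev_m_ne_zero F h3.1
    have e3 : k = l := ev_m_ne_zero F h5.2
    have e4 : j = m := id_m_ne_zero h5.1
    subst e1 e2 e3 e4
    exact ⟨rfl, rfl⟩
  ext ⟨_, i⟩ ⟨m, _⟩
  have hR : ((λ_ F).hom ≫ (ρ_ F).inv).m ((), i) (m, ()) =
      (λ_ (F.X i)).hom ≫ (ρ_ F).inv.m i (m, ()) := by
    rw [left_hom_eq]
    exact diag_comp_m (F := tens (unit P) F) (G := F) _ _ _ _ _
  refine Eq.trans ?_ hR.symm
  by_cases him : i = m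
  · subst him
    refine (comp_m_single (F := tens (unit P) F) (G := tens (tens F (dual F)) F)
      (H := tens F (unit P)) (coev F ▷ F)
      ((α_ F (dual F) F).hom ≫ F ◁ ev F) ((), i) (i, ()) ((i, i), i)
      (fun j h1 h2 => (key _ _ _ h1 h2).1)).trans ?_
    have e1 : (coev F ▷ F).m ((), i) ((i, i), i) =
        η_ (F.X i) (F.X i)ᘁ ▷ F.X i := by
      change (coev F).m () (i, i) ⊗ₘ (𝟙 F : F ⟶ F).m i i = _
      rw [id_m_self, coev_m_self, MonoidalCategory.tensorHom_id]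
    have e2 : ((α_ F (dual F) F).hom ≫ F ◁ ev F).m ((i, i), i) (i, ()) =
        (α_ _ _ _).hom ≫ F.X i ◁ ε_ (F.X i) (F.X i)ᘁ := by
      rw [assoc_hom_eq]
      refine (diag_comp_m (F := tens (tens F (dual F)) F) (G := tens F (tens (dual F) F))
        _ _ _ _ _).trans ?_
      change _ ≫ ((𝟙 F : F ⟶ F).m i i ⊗ₘ (ev F).m (i, i) ()) = _
      rw [id_m_self, ev_m_self, MonoidalCategory.id_tensorHom]
    have e3 : (ρ_ F).inv.m i (i, ()) = (ρ_ (F.X i)).inv := by
      rw [right_inv_eq]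
      exact diag_m_self (F := F) (G := tens F (unit P)) _ _ i
    refine (congrArg₂ (fun a b => a ≫ b) e1 e2).trans ?_
    refine Eq.trans ?_ (congrArg (fun t => _ ≫ t) e3).symm
    exact ExactPairing.evaluation_coevaluation (F.X i) (F.X i)ᘁ
  · refine (comp_m_eq_zero (F := tens (unit P) F) (G := tens (tens F (dual F)) F)
      (H := tens F (unit P)) _ _ _ _ (fun j h1 => ?_)).trans ?_
    · by_contra h2
      exact him (key _ _ _ h1 h2).2.symm
    · have e3 : (ρ_ F).inv.m i (m, ()) = 0 := by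
        rw [right_inv_eq]
        refine diag_m_ne (F := F) (G := tens F (unit P)) _ _ ?_
        intro h
        exact him (congrArg Prod.fst h)
      exact ((congrArg (fun t => _ ≫ t) e3).trans comp_zero).symm

/-- A finite family has a right dual. -/
@[instance_reducible]
noncomputable def exactPairing [Finite F.ι] : ExactPairing F (dual F) where
  coevaluation' := coev F
  evaluation' := ev F
  coevaluation_evaluation' := zigzag₁ F
  evaluation_coevaluation' := zigzag₂ F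

end dual

end Fam

end Pool.Agent.H75.TT
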