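import Pool.Agent.H95.TT.Cpt

/-!
Rigid objects: retracts, isomorphisms, tensor products; rigid objects are compact (helper27).
-/

set_option linter.unusedSectionVars false

open CategoryTheory CategoryTheory.Limits MonoidalCategory

namespace Pool.Agent.H75.TT

section retract

variable {C : Type*} [Category* C] [MonoidalCategory C]

/-- A retract of an object with a right dual has a right dual, if the mate of the idempotent
splits. -/
@[instance_reducible]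
def exactPairingRetract {X X' Y Y' : C} [ExactPairing X X'] (i : Y ⟶ X) (p : X ⟶ Y)
    (i' : Y' ⟶ X') (p' : X' ⟶ Y') (h : i ≫ p = 𝟙 Y) (h' : i' ≫ p' = 𝟙 Y')
    (hm : η_ X X' ≫ (p ≫ i) ▷ X' = η_ X X' ≫ X ◁ (p' ≫ i'))
    (hm' : (p' ≫ i') ▷ X ≫ ε_ X X' = X' ◁ (p ≫ i) ≫ ε_ X X') : ExactPairing Y Y' where
  coevaluation' := η_ X X' ≫ (p ⊗ₘ p')
  evaluation' := (i' ⊗ₘ i) ≫ ε_ X X'
  coevaluation_evaluation' := by
    have h1 : (i' ⊗ₘ (p ≫ i)) ≫ ε_ X X' = (i' ⊗ₘ 𝟙 X) ≫ ε_ X X' := by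
      rw [MonoidalCategory.tensorHom_def, Category.assoc, ← hm', ← Category.assoc,
        ← comp_whiskerRight, ← Category.assoc, h', Category.id_comp,
        MonoidalCategory.tensorHom_id]
    calc
      _ = Y' ◁ η_ X X' ≫ (𝟙 Y' ⊗ₘ (p ⊗ₘ p')) ≫ (α_ Y' Y Y').inv ≫
          ((i' ⊗ₘ i) ⊗ₘ 𝟙 Y') ≫ (ε_ X X' ⊗ₘ 𝟙 Y') := by
        rw [MonoidalCategory.id_tensorHom, MonoidalCategory.tensorHom_id,
          MonoidalCategory.tensorHom_id, MonoidalCategory.whiskerLeft_comp, comp_whiskerRight,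
          Category.assoc]
      _ = Y' ◁ η_ X X' ≫ (α_ Y' X X').inv ≫ (((i' ⊗ₘ (p ≫ i)) ≫ ε_ X X') ⊗ₘ p') := by
        rw [associator_inv_naturality_assoc, tensorHom_comp_tensorHom_assoc,
          tensorHom_comp_tensorHom, tensorHom_comp_tensorHom]
        simp only [Category.id_comp, Category.comp_id]
      _ = Y' ◁ η_ X X' ≫ (α_ Y' X X').inv ≫ ((i' ⊗ₘ 𝟙 X) ⊗ₘ 𝟙 X') ≫ (ε_ X X' ⊗ₘ p') := by
        rw [h1, tensorHom_comp_tensorHom, Category.id_comp]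
      _ = (i' ▷ 𝟙_ C) ≫ (X' ◁ η_ X X' ≫ (α_ X' X X').inv ≫ ε_ X X' ▷ X') ≫ 𝟙_ C ◁ p' := by
        rw [← associator_inv_naturality_assoc, MonoidalCategory.id_tensorHom_id,
          MonoidalCategory.tensorHom_id, whisker_exchange_assoc,
          MonoidalCategory.tensorHom_def]
        simp only [Category.assoc]
      _ = _ := by
        rw [ExactPairing.coevaluation_evaluation, Category.assoc,
          ← leftUnitor_inv_naturality, rightUnitor_naturality_assoc, ← Category.assoc i',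
          h', Category.id_comp]
  evaluation_coevaluation' := by
    have h1 : η_ X X' ≫ (p ⊗ₘ (p' ≫ i')) = η_ X X' ≫ (p ⊗ₘ 𝟙 X') := by
      rw [MonoidalCategory.tensorHom_def', ← Category.assoc, ← hm, Category.assoc,
        ← comp_whiskerRight, Category.assoc, h, Category.comp_id,
        MonoidalCategory.tensorHom_id]
    calc
      _ = (η_ X X' ⊗ₘ 𝟙 Y) ≫ ((p ⊗ₘ p') ⊗ₘ 𝟙 Y) ≫ (α_ Y Y' Y).hom ≫
          (𝟙 Y ⊗ₘ (i' ⊗ₘ i)) ≫ (Y ◁ ε_ X X') := by
        rw [MonoidalCategory.id_tensorHom, MonoidalCategory.tensorHom_id,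
          MonoidalCategory.tensorHom_id, MonoidalCategory.whiskerLeft_comp, comp_whiskerRight,
          Category.assoc]
      _ = ((η_ X X' ≫ (p ⊗ₘ (p' ≫ i'))) ⊗ₘ i) ≫ (α_ Y X' X).hom ≫ (Y ◁ ε_ X X') := by
        rw [← associator_naturality_assoc, tensorHom_comp_tensorHom_assoc,
          tensorHom_comp_tensorHom_assoc]
        simp only [Category.id_comp, Category.comp_id, Category.assoc, tensorHom_comp_tensorHom]
      _ = ((η_ X X' ⊗ₘ i)) ≫ ((p ⊗ₘ 𝟙 X') ⊗ₘ 𝟙 X) ≫ (α_ Y X' X).hom ≫ (Y ◁ ε_ X X') := by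
        rw [h1, tensorHom_comp_tensorHom_assoc, Category.comp_id]
      _ = (𝟙_ C ◁ i) ≫ (η_ X X' ▷ X ≫ (α_ X X' X).hom ≫ X ◁ ε_ X X') ≫ p ▷ 𝟙_ C := by
        rw [associator_naturality_assoc, MonoidalCategory.id_tensorHom_id,
          MonoidalCategory.tensorHom_id, Category.assoc, Category.assoc,
          whisker_exchange, MonoidalCategory.tensorHom_def']
        simp only [Category.assoc]
      _ = _ := by
        rw [ExactPairing.evaluation_coevaluation, Category.assoc,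
          ← rightUnitor_inv_naturality, leftUnitor_naturality_assoc, ← Category.assoc i,
          h, Category.id_comp]

/-- A retract of an object with a right dual has a right dual if idempotents split. -/
theorem hasRightDual_of_retract
    (hs : ∀ (X : C) (e : X ⟶ X), e ≫ e = e →
      ∃ (Y : C) (i : Y ⟶ X) (p : X ⟶ Y), i ≫ p = 𝟙 Y ∧ p ≫ i = e)
    {X Y : C} (i : Y ⟶ X) (p : X ⟶ Y) (h : i ≫ p = 𝟙 Y) (hX : Nonempty (HasRightDual X)) :
    Nonempty (HasRightDual Y) := by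
  obtain ⟨hX⟩ := hX
  have he : (p ≫ i) ≫ (p ≫ i) = p ≫ i := by
    rw [Category.assoc, ← Category.assoc i, h, Category.id_comp]
  have he' : ((p ≫ i)ᘁ) ≫ ((p ≫ i)ᘁ) = ((p ≫ i)ᘁ) := by
    rw [← comp_rightAdjointMate, he]
  obtain ⟨Y', i', p', h', hm⟩ := hs _ _ he'
  have h1 : η_ X (Xᘁ) ≫ (p ≫ i) ▷ Xᘁ = η_ X (Xᘁ) ≫ X ◁ (p' ≫ i') := by
    rw [hm]
    exact (coevaluation_comp_rightAdjointMate _).symm
  have h2 : (p' ≫ i') ▷ X ≫ ε_ X (Xᘁ) = Xᘁ ◁ (p ≫ i) ≫ ε_ X (Xᘁ) := by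
    rw [hm]
    exact rightAdjointMate_comp_evaluation _
  exact ⟨{ rightDual := Y', exact := exactPairingRetract i p i' p' h h' h1 h2 }⟩

/-- Objects with a right dual are closed under isomorphism. -/
theorem hasRightDual_of_iso {X Y : C} (e : X ≅ Y) (hX : Nonempty (HasRightDual X)) :
    Nonempty (HasRightDual Y) := by
  obtain ⟨hX⟩ := hX
  exact ⟨{ rightDual := Xᘁ, exact := exactPairingCongrLeft e.symm }⟩

/-- Objects with a right dual are closed under tensor products. -/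
theorem hasRightDual_tensor {X Y : C} (hX : Nonempty (HasRightDual X))
    (hY : Nonempty (HasRightDual Y)) : Nonempty (HasRightDual (X ⊗ Y)) := by
  obtain ⟨hX⟩ := hX
  obtain ⟨hY⟩ := hY
  exact ⟨hasRightDualTensor⟩

end retract

section compact

open Pool.Agent.H95.TT

universe u

variable {C : Type (u+1)} [Category.{u} C] [Preadditive C] [HasCoproducts.{u} C]
  [MonoidalCategory C] [MonoidalPreadditive C]

/-- If the unit is compact and tensor products preserve coproducts, objects with a right dual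
are compact. -/
theorem isCpt_of_hasRightDual (h1 : IsCpt (𝟙_ C))
    (hT : ∀ (X : C) (J : Type u), PreservesColimitsOfShape (Discrete J) (tensorRight X))
    {X : C} (hX : Nonempty (HasRightDual X)) : IsCpt X := by
  classical
  obtain ⟨hX⟩ := hX
  rw [isCpt_iff]
  intro J Y f
  have hTX := hT (Xᘁ) J
  -- the mate of `f`
  obtain ⟨s, a, ha⟩ := IsCpt.exists_sum h1
    ((η_ X (Xᘁ) ≫ f ▷ Xᘁ) ≫ (PreservesCoproduct.iso (tensorRight (Xᘁ)) Y).hom)
  have h2 : η_ X (Xᘁ) ≫ f ▷ Xᘁ = ∑ j ∈ s, a j ≫ (Sigma.ι Y j ▷ Xᘁ) := by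
    have h3 : η_ X (Xᘁ) ≫ f ▷ Xᘁ = ((η_ X (Xᘁ) ≫ f ▷ Xᘁ) ≫
        (PreservesCoproduct.iso (tensorRight (Xᘁ)) Y).hom) ≫
        (PreservesCoproduct.iso (tensorRight (Xᘁ)) Y).inv := by
      rw [Category.assoc, Iso.hom_inv_id, Category.comp_id]
    rw [h3, ha, Preadditive.sum_comp]
    refine Finset.sum_congr rfl fun j _ => ?_
    rw [Category.assoc]
    exact congrArg (fun t => a j ≫ t) (ι_comp_sigmaComparison (tensorRight (Xᘁ)) Y j)
  have h4 : f = (λ_ X).inv ≫ (η_ X (Xᘁ) ≫ f ▷ Xᘁ) ▷ X ≫ (α_ _ _ _).hom ≫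
      (∐ Y) ◁ ε_ X (Xᘁ) ≫ (ρ_ _).hom := by
    have h5 : (η_ X (Xᘁ) ≫ f ▷ Xᘁ) ▷ X ≫ (α_ _ _ _).hom ≫ (∐ Y) ◁ ε_ X (Xᘁ) =
        (η_ X (Xᘁ) ▷ X ≫ (α_ _ _ _).hom ≫ X ◁ ε_ X (Xᘁ)) ≫ f ▷ 𝟙_ C := by
      rw [comp_whiskerRight, Category.assoc, Category.assoc, Category.assoc, whisker_exchange,
        associator_naturality_left_assoc]
    rw [reassoc_of% h5, ExactPairing.evaluation_coevaluation_assoc]
    simp
  rw [h4, h2]
  have h6 : (∑ j ∈ s, a j ≫ (Sigma.ι Y j ▷ Xᘁ)) ▷ X =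
      ∑ j ∈ s, (a j ≫ (Sigma.ι Y j ▷ Xᘁ)) ▷ X := by
    rw [← MonoidalCategory.tensorHom_id, sum_tensor]
    simp only [MonoidalCategory.tensorHom_id]
  rw [h6, Preadditive.sum_comp, Preadditive.comp_sum]
  refine sum_mem fun j _ => ?_
  have h7 : (λ_ X).inv ≫ (a j ≫ (Sigma.ι Y j ▷ Xᘁ)) ▷ X ≫ (α_ _ _ _).hom ≫
      (∐ Y) ◁ ε_ X (Xᘁ) ≫ (ρ_ _).hom =
      ((λ_ X).inv ≫ (a j ▷ X) ≫ (α_ _ _ _).hom ≫ Y j ◁ ε_ X (Xᘁ) ≫ (ρ_ _).hom) ≫
        Sigma.ι Y j := by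
    rw [comp_whiskerRight, Category.assoc, associator_naturality_left_assoc,
      ← whisker_exchange_assoc]
    simp
  rw [h7]
  exact comp_ι_mem_FS _

end compact

end Pool.Agent.H75.TT
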