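import Pool.Agent.H27.TT.Star

/-!
Finite complexes are rigid (helper27).
-/

set_option linter.unusedSectionVars false

open CategoryTheory CategoryTheory.Limits MonoidalCategory

namespace Pool.Agent.H75.TT

/-- The converse of a well-founded relation on a finite type is well-founded. -/
lemma wf_swap_of_finite {α : Type*} [Finite α] {r : α → α → Prop} (h : WellFounded r) :
    WellFounded fun a b => r b a := by
  have h1 : WellFounded (Relation.TransGen r) := h.transGen
  have h2 : IsTrans α (fun a b => Relation.TransGen r b a) :=
    ⟨fun a b c hab hbc => Relation.TransGen.trans hbc hab⟩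
  have h3 : Std.Irrefl (fun a b => Relation.TransGen r b a) :=
    ⟨fun a ha => h1.irrefl.irrefl a ha⟩
  have h4 : WellFounded (fun a b => Relation.TransGen r b a) :=
    Finite.wellFounded_of_trans_of_irrefl _
  exact Subrelation.wf (fun {a b} hab => Relation.TransGen.single hab) h4

open Fam

namespace DG

variable {P : Type} [Category.{0} P] [Preadditive P] [MonoidalCategory P]
  [MonoidalPreadditive P] [RightRigidCategory P]

/-- The dual of a finite complex. -/
noncomputable def dual (A : DG P) [Finite A.F.ι] : DG P where
  F := Fam.dual A.F
  deg i := - A.deg i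
  d := -(sgn (F := Fam.dual A.F) (fun i => - A.deg i) ≫ mt A.d)
  hd := by
    have h : Homog (F := Fam.dual A.F) (G := Fam.dual A.F) (fun i => - A.deg i)
        (fun i => - A.deg i) 1 (mt A.d) := by
      intro j i h
      have := A.hd i j (mt_m_ne_zero A.d h)
      change - A.deg i = - A.deg j + 1
      rw [this]
      ring
    exact ((sgn_homog _).comp' h (zero_add 1)).neg
  dd := by
    have h : Homog (F := Fam.dual A.F) (G := Fam.dual A.F) (fun i => - A.deg i)
        (fun i => - A.deg i) 1 (mt A.d) := by
      intro j i h
      have := A.hd i j (mt_m_ne_zero A.d h)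
      change - A.deg i = - A.deg j + 1
      rw [this]
      ring
    have h1 : mt A.d ≫ mt A.d = 0 := by rw [← mt_comp, A.dd, mt_zero]
    rw [Preadditive.neg_comp, Preadditive.comp_neg, neg_neg, Category.assoc,
      ← Category.assoc (mt A.d), comp_sgn_one h, Preadditive.neg_comp, Category.assoc, h1,
      comp_zero, neg_zero, comp_zero]
  wf := by
    refine Subrelation.wf (h₁ := ?_) (wf_swap_of_finite A.wf)
    intro j i h
    refine mt_m_ne_zero A.d (j := i) (i := j) ?_
    intro h0
    apply h
    rw [neg_m, sgn_comp_m, h0, smul_zero, neg_zero]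

variable (A : DG P) [Finite A.F.ι]

/-- The coevaluation of a finite complex. -/
noncomputable def coevHom : 𝟙_ (DG P) ⟶ A ⊗ dual A where
  f := Fam.coev A.F
  hf := by
    rintro u ⟨i, j⟩ h
    have e : i = j := coev_m_ne_zero A.F h
    subst e
    change A.deg i + - A.deg i = 0 + 0
    ring
  comm := (zero_comp (f := Fam.coev A.F)).trans (coev_comm A.deg A.d).symm

/-- The evaluation of a finite complex. -/
noncomputable def evHom : dual A ⊗ A ⟶ 𝟙_ (DG P) where
  f := Fam.ev A.F
  hf := by
    rintro ⟨i, j⟩ u h
    have e : i = j := ev_m_ne_zero A.F h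
    subst e
    change (0 : ℤ) = (- A.deg i + A.deg i) + 0
    ring
  comm := (ev_comm A.deg A.d).trans (comp_zero (f := Fam.ev A.F)).symm

/-- A finite complex has a right dual. -/
@[instance_reducible]
noncomputable def exactPairing : ExactPairing A (dual A) where
  coevaluation' := coevHom A
  evaluation' := evHom A
  coevaluation_evaluation' := DG.hom_ext (zigzag₁ A.F)
  evaluation_coevaluation' := DG.hom_ext (zigzag₂ A.F)

end DG

/-- A complex with a finite family over a rigid category is rigid. -/
theorem DG.hasRightDual {P : Type} [Category.{0} P] [Preadditive P] [MonoidalCategory P]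
    [MonoidalPreadditive P] (hP : ∀ X : P, Nonempty (HasRightDual X)) (A : DG P)
    [Finite A.F.ι] : Nonempty (HasRightDual A) := by
  let : RightRigidCategory P := { rightDual := fun X => (hP X).some }
  exact ⟨{ rightDual := DG.dual A, exact := DG.exactPairing A }⟩

/-- The image of a rigid complex in the homotopy category is rigid. -/
theorem T.hasRightDual_Q {P : Type} [Category.{0} P] [Preadditive P] [MonoidalCategory P]
    [MonoidalPreadditive P] {A : DG P} (h : Nonempty (HasRightDual A)) :
    Nonempty (HasRightDual ((Q : DG P ⥤ T P).obj A)) := by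
  obtain ⟨h⟩ := h
  exact ⟨
    { rightDual := (Q : DG P ⥤ T P).obj (HasRightDual.rightDual A)
      exact :=
      { coevaluation' := (Q : DG P ⥤ T P).map (η_ A (HasRightDual.rightDual A))
        evaluation' := (Q : DG P ⥤ T P).map (ε_ A (HasRightDual.rightDual A))
        coevaluation_evaluation' :=
          congrArg (Q : DG P ⥤ T P).map (ExactPairing.coevaluation_evaluation A (HasRightDual.rightDual A))
        evaluation_coevaluation' :=
          congrArg (Q : DG P ⥤ T P).map (ExactPairing.evaluation_coevaluation A (HasRightDual.rightDual A)) } }⟩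

/-- Finite complexes over a rigid category are rigid in the homotopy category. -/
theorem T.hasRightDual_of_finite {P : Type} [Category.{0} P] [Preadditive P]
    [MonoidalCategory P] [MonoidalPreadditive P] (hP : ∀ X : P, Nonempty (HasRightDual X))
    (A : DG P) [Finite A.F.ι] : Nonempty (HasRightDual ((Q : DG P ⥤ T P).obj A)) :=
  T.hasRightDual_Q (DG.hasRightDual hP A)

end Pool.Agent.H75.TT
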