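import Pool.Agent.H27.TT.FamDual

/-!
Mates of matrices (helper27).
-/

set_option linter.unusedSectionVars false

open CategoryTheory CategoryTheory.Limits MonoidalCategory

namespace Pool.Agent.H75.TT

section mate

variable {C : Type*} [Category* C] [Preadditive C] [MonoidalCategory C] [MonoidalPreadditive C]
variable {X Y : C} [HasRightDual X] [HasRightDual Y]

lemma mate_add (f g : X ⟶ Y) : (f + g)ᘁ = fᘁ + gᘁ := by
  simp only [rightAdjointMate, MonoidalPreadditive.add_whiskerRight,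
    MonoidalPreadditive.whiskerLeft_add, Preadditive.comp_add, Preadditive.add_comp]

/-- The mate as an additive map. -/
def mateHom (X Y : C) [HasRightDual X] [HasRightDual Y] : (X ⟶ Y) →+ (Yᘁ ⟶ Xᘁ) :=
  AddMonoidHom.mk' (fun f => fᘁ) mate_add

lemma mateHom_apply (f : X ⟶ Y) : mateHom X Y f = fᘁ := rfl

lemma mate_zero : (0 : X ⟶ Y)ᘁ = 0 := (mateHom X Y).map_zero

lemma mate_zsmul (n : ℤ) (f : X ⟶ Y) : (n • f)ᘁ = n • fᘁ := (mateHom X Y).map_zsmul n f

lemma mate_sum {α : Type*} (s : Finset α) (f : α → (X ⟶ Y)) :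
    (∑ a ∈ s, f a)ᘁ = ∑ a ∈ s, (f a)ᘁ := map_sum (mateHom X Y) f s

end mate

namespace Fam

variable {P : Type} [Category.{0} P] [Preadditive P] [MonoidalCategory P]
  [MonoidalPreadditive P] [RightRigidCategory P] {F G H : Fam P}

/-- The mate of a matrix. -/
noncomputable def mt [Finite F.ι] (d : F ⟶ G) : dual G ⟶ dual F where
  m j i := (d.m i j)ᘁ
  fin _ := Set.toFinite _

lemma mt_m [Finite F.ι] (d : F ⟶ G) (j : G.ι) (i : F.ι) : (mt d).m j i = (d.m i j)ᘁ := rfl

lemma mt_m_ne_zero [Finite F.ι] (d : F ⟶ G) {j : G.ι} {i : F.ι} (h : (mt d).m j i ≠ 0) :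
    d.m i j ≠ 0 := by
  intro h0
  apply h
  rw [mt_m, h0, mate_zero]

lemma mt_zero [Finite F.ι] : mt (0 : F ⟶ G) = 0 := by
  ext j i
  exact mate_zero

lemma mt_comp [Finite F.ι] [Finite G.ι] (f : F ⟶ G) (g : G ⟶ H) :
    mt (f ≫ g) = mt g ≫ mt f := by
  classical
  have := Fintype.ofFinite G.ι
  ext k i
  rw [mt_m, comp_m_fintype, mate_sum]
  refine Eq.trans ?_ (comp_m_sum (F := dual H) (G := dual G) (H := dual F) (mt g) (mt f) k i
    Finset.univ fun _ _ => Finset.mem_univ _).symm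
  refine Finset.sum_congr rfl fun j _ => ?_
  exact comp_rightAdjointMate

lemma coev_mt [Finite F.ι] [Finite G.ι] (d : F ⟶ G) :
    coev F ≫ tensHom d (𝟙 (dual F)) = coev G ≫ tensHom (𝟙 G) (mt d) := by
  ext u ⟨k, l⟩
  refine (comp_m_single (F := unit P) (G := tens F (dual F)) (H := tens G (dual F)) _ _ u (k, l)
    (l, l) ?_).trans ?_
  · rintro ⟨i, j⟩ h1 h2
    have h3 := tensHom_m_ne_zero _ _ h2
    have e1 : i = j := coev_m_ne_zero F h1
    have e2 : j = l := id_m_ne_zero h3.2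
    subst e1 e2
    rfl
  refine Eq.trans ?_ (comp_m_single (F := unit P) (G := tens G (dual G)) (H := tens G (dual F))
    _ _ u (k, l) (k, k) ?_).symm
  · change (coev F).m () (l, l) ≫ (d.m l k ⊗ₘ (𝟙 (dual F) : dual F ⟶ dual F).m l l) =
      (coev G).m () (k, k) ≫ ((𝟙 G : G ⟶ G).m k k ⊗ₘ (d.m l k)ᘁ)
    rw [id_m_self, id_m_self, coev_m_self, coev_m_self, MonoidalCategory.tensorHom_id,
      MonoidalCategory.id_tensorHom]
    exact (coevaluation_comp_rightAdjointMate _).symm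
  · rintro ⟨i, j⟩ h1 h2
    have h3 := tensHom_m_ne_zero _ _ h2
    have e1 : i = j := coev_m_ne_zero G h1
    have e2 : i = k := id_m_ne_zero h3.1
    subst e1 e2
    rfl

lemma mt_ev [Finite F.ι] (d : F ⟶ G) :
    tensHom (mt d) (𝟙 F) ≫ ev F = tensHom (𝟙 (dual G)) d ≫ ev G := by
  ext ⟨k, l⟩ u
  refine (comp_m_single (F := tens (dual G) F) (G := tens (dual F) F) (H := unit P) _ _ (k, l) u
    (l, l) ?_).trans ?_
  · rintro ⟨i, j⟩ h2 h1
    have h3 := tensHom_m_ne_zero _ _ h2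
    have e1 : i = j := ev_m_ne_zero F h1
    have e2 : l = j := id_m_ne_zero h3.2
    subst e1 e2
    rfl
  refine Eq.trans ?_ (comp_m_single (F := tens (dual G) F) (G := tens (dual G) G) (H := unit P)
    _ _ (k, l) u (k, k) ?_).symm
  · change ((d.m l k)ᘁ ⊗ₘ (𝟙 F : F ⟶ F).m l l) ≫ (ev F).m (l, l) () =
      ((𝟙 (dual G) : dual G ⟶ dual G).m k k ⊗ₘ d.m l k) ≫ (ev G).m (k, k) ()
    rw [id_m_self, id_m_self, ev_m_self, ev_m_self, MonoidalCategory.tensorHom_id,
      MonoidalCategory.id_tensorHom]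
    exact rightAdjointMate_comp_evaluation _
  · rintro ⟨i, j⟩ h2 h1
    have h3 := tensHom_m_ne_zero _ _ h2
    have e1 : i = j := ev_m_ne_zero G h1
    have e2 : k = i := id_m_ne_zero h3.1
    subst e1 e2
    rfl

lemma mt_sgn [Finite F.ι] (a : F.ι → ℤ) :
    mt (sgn a) = sgn (F := dual F) (fun i => - a i) := by
  ext j i
  rw [mt_m]
  by_cases h : i = j
  · subst h
    have h1 : (sgn a).m i i = ((a i).negOnePow : ℤ) • 𝟙 (F.X i) :=
      diag_m_self (F := F) (G := F) (fun i => i) _ i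
    have h2 : (sgn (F := dual F) (fun i => - a i)).m i i =
        ((- a i).negOnePow : ℤ) • 𝟙 ((dual F).X i) :=
      diag_m_self (F := dual F) (G := dual F) (fun i => i) _ i
    rw [h1, h2, mate_zsmul, rightAdjointMate_id, Int.negOnePow_neg]
  · have h1 : (sgn a).m i j = 0 := diag_m_ne (F := F) (G := F) (fun i => i) _ h
    have h2 : (sgn (F := dual F) (fun i => - a i)).m j i = 0 :=
      diag_m_ne (F := dual F) (G := dual F) (fun i => i) _ (fun h' => h h'.symm)
    rw [h1, h2, mate_zero]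

lemma coev_comm [Finite F.ι] (a : F.ι → ℤ) (d : F ⟶ F) :
    coev F ≫ (tensHom d (𝟙 (dual F)) +
      tensHom (sgn a) (-(sgn (F := dual F) (fun i => - a i) ≫ mt d))) = 0 := by
  have h1 : tensHom (sgn a) (-(sgn (F := dual F) (fun i => - a i) ≫ mt d)) =
      tensHom (sgn a) (𝟙 (dual F)) ≫
        tensHom (𝟙 F) (-(sgn (F := dual F) (fun i => - a i) ≫ mt d)) := by
    rw [tensHom_comp, Category.comp_id, Category.id_comp]
  have h2 : tensHom (𝟙 F) (sgn (F := dual F) (fun i => - a i)) ≫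
      tensHom (𝟙 F) (-(sgn (F := dual F) (fun i => - a i) ≫ mt d)) =
        - tensHom (𝟙 F) (mt d) := by
    rw [tensHom_comp, Category.comp_id, Preadditive.comp_neg, ← Category.assoc, sgn_sgn,
      Category.id_comp]
    exact tensor_neg (C := Fam P) (𝟙 F) (mt d)
  have h3 : coev F ≫ tensHom (sgn a) (𝟙 (dual F)) =
      coev F ≫ tensHom (𝟙 F) (sgn (F := dual F) (fun i => - a i)) := by
    rw [coev_mt, mt_sgn]
  rw [Preadditive.comp_add, h1, ← Category.assoc, h3, coev_mt, Category.assoc, h2,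
    Preadditive.comp_neg, add_neg_cancel]

lemma ev_comm [Finite F.ι] (a : F.ι → ℤ) (d : F ⟶ F) :
    (tensHom (-(sgn (F := dual F) (fun i => - a i) ≫ mt d)) (𝟙 F) +
      tensHom (sgn (F := dual F) (fun i => - a i)) d) ≫ ev F = 0 := by
  have h1 : tensHom (sgn (F := dual F) (fun i => - a i)) d =
      tensHom (sgn (F := dual F) (fun i => - a i)) (𝟙 F) ≫ tensHom (𝟙 (dual F)) d := by
    rw [tensHom_comp, Category.comp_id, Category.id_comp]
  have h2 : tensHom (sgn (F := dual F) (fun i => - a i)) (𝟙 F) ≫ tensHom (mt d) (𝟙 F) =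
      - tensHom (-(sgn (F := dual F) (fun i => - a i) ≫ mt d)) (𝟙 F) := by
    rw [tensHom_comp, Category.comp_id]
    have := neg_tensor (C := Fam P) (sgn (F := dual F) (fun i => - a i) ≫ mt d) (𝟙 F)
    rw [Fam.tensorHom_eq, Fam.tensorHom_eq] at this
    rw [this, neg_neg]
  rw [Preadditive.add_comp, h1, Category.assoc, ← mt_ev, ← Category.assoc, h2,
    Preadditive.neg_comp, add_neg_cancel]

end Fam

end Pool.Agent.H75.TT
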